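import Mathlib

set_option autoImplicit false

namespace Pool.Agent.TH319

open Module Filter Topology

universe u

theorem re_near_of_small {z : ℂ} (h : ‖z * (1 - z)‖ < 1 / 64) :
    (|z.re| < 1 / 32) ∨ (|1 - z.re| < 1 / 32) := by
  rw [norm_mul] at h
  have ht : 1 ≤ ‖z‖ + ‖1 - z‖ := by
    have := norm_add_le z (1 - z)
    simpa using this
  by_cases hz : ‖z‖ < 1 / 2
  · left
    have h1 : 1 / 2 < ‖1 - z‖ := by linarith
    have h2 : ‖z‖ < 1 / 32 := by
      by_contra hc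
      push Not at hc
      nlinarith
    exact lt_of_le_of_lt (Complex.abs_re_le_norm z) h2
  · right
    push Not at hz
    have h2 : ‖1 - z‖ < 1 / 32 := by
      by_contra hc
      push Not at hc
      nlinarith
    have h3 := Complex.abs_re_le_norm (1 - z)
    simp only [Complex.sub_re, Complex.one_re] at h3
    exact lt_of_le_of_lt h3 h2

theorem exists_eigvec_of_root (Q : Matrix (Fin 2) (Fin 2) ℂ) {lam : ℂ}
    (h : lam ^ 2 - Q.trace * lam + Q.det = 0) :
    ∃ v : Fin 2 → ℂ, v ≠ 0 ∧ Q.mulVec v = lam • v := by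
  have hdet : (Q - Matrix.diagonal (fun _ => lam)).det = 0 := by
    rw [Matrix.det_fin_two]
    rw [Matrix.trace_fin_two, Matrix.det_fin_two] at h
    simp only [Matrix.sub_apply, Matrix.diagonal_apply_eq, ne_eq, zero_ne_one, not_false_eq_true,
      Matrix.diagonal_apply_ne, one_ne_zero, sub_zero]
    linear_combination h
  obtain ⟨v, hv, hv2⟩ := Matrix.exists_mulVec_eq_zero_iff.2 hdet
  refine ⟨v, hv, ?_⟩
  rw [Matrix.sub_mulVec, sub_eq_zero] at hv2
  rw [hv2]
  funext i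
  simp [Matrix.mulVec_diagonal]

theorem exists_mid_eigen (Q : Matrix (Fin 2) (Fin 2) ℂ) (h1 : 1 / 2 ≤ (Q.trace).re)
    (h2 : (Q.trace).re ≤ 3 / 4) :
    ∃ (v : Fin 2 → ℂ) (lam : ℂ), v ≠ 0 ∧ Q.mulVec v = lam • v ∧
      1 / 64 ≤ ‖lam * (1 - lam)‖ := by
  obtain ⟨s, hs⟩ := IsAlgClosed.exists_pow_nat_eq (Q.trace ^ 2 - 4 * Q.det) (n := 2) (by norm_num)
  obtain ⟨v, hv, hv2⟩ := exists_eigvec_of_root Q (lam := (Q.trace + s) / 2) (by
    linear_combination hs / 4)
  obtain ⟨w, hw, hw2⟩ := exists_eigvec_of_root Q (lam := (Q.trace - s) / 2) (by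
    linear_combination hs / 4)
  by_contra hcon
  push Not at hcon
  have e1 := re_near_of_small (hcon v _ hv hv2)
  have e2 := re_near_of_small (hcon w _ hw hw2)
  have hre : ((Q.trace + s) / 2).re + ((Q.trace - s) / 2).re = (Q.trace).re := by
    rw [← Complex.add_re]
    congr 1
    ring
  simp only [abs_lt] at e1 e2
  rcases e1 with ⟨a, b⟩ | ⟨a, b⟩ <;> rcases e2 with ⟨c, d⟩ | ⟨c, d⟩ <;> linarith

end Pool.Agent.TH319
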