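import Pool.Agent.TH319.CDefs

/-!
Dimension and perturbation of the planes `Pl x n`.
-/

set_option autoImplicit false

namespace Pool.Agent.TH319

open Module Filter Topology

universe u

section PlaneAux

variable {X : Type*} [NormedAddCommGroup X] [NormedSpace ℂ X]

theorem D3.coord_le {x : Fin 3 → X} {M : Submodule ℂ X} (hx : ∀ i, ‖x i‖ = 1)
    (hD : D3 1 x M) (z : Fin 3 → ℂ) {m : X} (hm : m ∈ M) (i : Fin 3) :
    ‖z i‖ ≤ 3 / 2 * ‖∑ j, z j • x j + m‖ := by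
  have h := hD z (fun j => if j = i then -1 else 1) (by intro j; split_ifs <;> simp) m hm
  have e : (2 * z i) • x i = (∑ j, z j • x j + m) -
      (∑ j, ((if j = i then (-1 : ℂ) else 1) * z j) • x j + m) := by
    fin_cases i <;> simp [Fin.sum_univ_three] <;> module
  have h2 : ‖(2 * z i) • x i‖ ≤ ‖∑ j, z j • x j + m‖ +
      ‖∑ j, ((if j = i then (-1 : ℂ) else 1) * z j) • x j + m‖ := by
    rw [e]
    exact norm_sub_le _ _
  rw [norm_smul, hx, mul_one, norm_mul, Complex.norm_ofNat] at h2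
  linarith

/-- The linear combination map. -/
noncomputable def plComb (x : Fin 3 → X) : (Fin 3 → ℂ) →ₗ[ℂ] X where
  toFun z := ∑ i, z i • x i
  map_add' z z' := by simp [add_smul, Finset.sum_add_distrib]
  map_smul' c z := by simp [Finset.smul_sum, smul_smul]

theorem plComb_apply (x : Fin 3 → X) (z : Fin 3 → ℂ) : plComb x z = ∑ i, z i • x i := rfl

theorem plComb_injective {x : Fin 3 → X} {M : Submodule ℂ X} (hx : ∀ i, ‖x i‖ = 1)
    (hD : D3 1 x M) : Function.Injective (plComb x) := by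
  rw [injective_iff_map_eq_zero]
  intro z hz
  funext i
  have h := hD.coord_le hx z M.zero_mem i
  rw [plComb_apply] at hz
  rw [hz] at h
  simp only [add_zero, norm_zero, mul_zero] at h
  exact norm_le_zero_iff.1 h

/-- The functional defining the plane. -/
noncomputable def plFunc (n : Fin 3 → ℝ) : (Fin 3 → ℂ) →ₗ[ℂ] ℂ where
  toFun z := ∑ i, (n i : ℂ) * z i
  map_add' z z' := by simp [mul_add, Finset.sum_add_distrib]
  map_smul' c z := by
    simp only [Pi.smul_apply, smul_eq_mul, RingHom.id_apply, Finset.mul_sum]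
    exact Finset.sum_congr rfl fun i _ => by ring

theorem plFunc_apply (n : Fin 3 → ℝ) (z : Fin 3 → ℂ) : plFunc n z = ∑ i, (n i : ℂ) * z i := rfl

theorem Pl_eq_map (x : Fin 3 → X) (n : Fin 3 → ℝ) :
    Pl x n = (LinearMap.ker (plFunc n)).map (plComb x) := by
  ext y
  constructor
  · rintro ⟨z, hz, rfl⟩
    exact ⟨z, hz, rfl⟩
  · rintro ⟨z, hz, rfl⟩
    exact ⟨z, hz, rfl⟩

/-- Correction of the coordinates so that they lie in the kernel of the functional. -/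
noncomputable def plCorr (n' : Fin 3 → ℝ) (i : Fin 3) : (Fin 3 → ℂ) →ₗ[ℂ] (Fin 3 → ℂ) :=
  LinearMap.id - (LinearMap.single ℂ (fun _ : Fin 3 => ℂ) i).comp
    (((n' i : ℂ)⁻¹) • plFunc n')

theorem plCorr_apply (n' : Fin 3 → ℝ) (i : Fin 3) (z : Fin 3 → ℂ) :
    plCorr n' i z = z - Pi.single i ((n' i : ℂ)⁻¹ * plFunc n' z) := rfl

theorem plFunc_corr {n' : Fin 3 → ℝ} {i : Fin 3} (hi : n' i ≠ 0) (z : Fin 3 → ℂ) :
    plFunc n' (plCorr n' i z) = 0 := by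
  rw [plCorr_apply, map_sub]
  have hi' : (n' i : ℂ) ≠ 0 := by exact_mod_cast hi
  have e : plFunc n' (Pi.single i ((n' i : ℂ)⁻¹ * plFunc n' z)) = plFunc n' z := by
    rw [plFunc_apply n' (Pi.single i _), Finset.sum_eq_single i]
    · rw [Pi.single_eq_same, ← mul_assoc, mul_inv_cancel₀ hi', one_mul]
    · intro j _ hj
      rw [Pi.single_eq_of_ne hj, mul_zero]
    · intro h; exact absurd (Finset.mem_univ i) h
  rw [e, sub_self]

theorem plComb_single (x : Fin 3 → X) (i : Fin 3) (c : ℂ) : plComb x (Pi.single i c) = c • x i := by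
  rw [plComb_apply, Finset.sum_eq_single i]
  · rw [Pi.single_eq_same]
  · intro j _ hj
    rw [Pi.single_eq_of_ne hj, zero_smul]
  · intro h; exact absurd (Finset.mem_univ i) h

theorem norm_plFunc_le {x : Fin 3 → X} {M : Submodule ℂ X} (hx : ∀ i, ‖x i‖ = 1)
    (hD : D3 1 x M) {n n' : Fin 3 → ℝ} {ρ : ℝ} (hρ0 : 0 ≤ ρ) (hnn : ∀ i, |n i - n' i| ≤ ρ)
    {z : Fin 3 → ℂ} (hz : plFunc n z = 0) {m : X} (hm : m ∈ M) :
    ‖plFunc n' z‖ ≤ 9 / 2 * ρ * ‖plComb x z + m‖ := by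
  have e : plFunc n' z = -∑ i, (((n i - n' i : ℝ)) : ℂ) * z i := by
    have h0 : plFunc n z = ∑ i, (n i : ℂ) * z i := rfl
    have h1 : plFunc n' z = ∑ i, (n' i : ℂ) * z i := rfl
    have h2 : ∑ i, (((n i - n' i : ℝ)) : ℂ) * z i = plFunc n z - plFunc n' z := by
      rw [h0, h1, ← Finset.sum_sub_distrib]
      exact Finset.sum_congr rfl fun i _ => by push_cast; ring
    rw [h2, hz, zero_sub, neg_neg]
  rw [e, norm_neg]
  refine (norm_sum_le _ _).trans ?_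
  have h3 : ∀ i ∈ (Finset.univ : Finset (Fin 3)),
      ‖(((n i - n' i : ℝ)) : ℂ) * z i‖ ≤ ρ * (3 / 2 * ‖plComb x z + m‖) := by
    intro i _
    rw [norm_mul, Complex.norm_real, Real.norm_eq_abs]
    exact mul_le_mul (hnn i) (hD.coord_le hx z hm i) (norm_nonneg _) hρ0
  refine (Finset.sum_le_sum h3).trans ?_
  rw [Finset.sum_const, Finset.card_univ, Fintype.card_fin, nsmul_eq_mul]
  push_cast
  nlinarith [norm_nonneg (plComb x z + m)]

theorem norm_plCorr_sub_le {x : Fin 3 → X} {M : Submodule ℂ X} (hx : ∀ i, ‖x i‖ = 1)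
    (hD : D3 1 x M) {n n' : Fin 3 → ℝ} {ρ : ℝ} (hρ0 : 0 ≤ ρ) (hnn : ∀ i, |n i - n' i| ≤ ρ)
    {i : Fin 3} (hi : 1 / 3 ≤ n' i)
    {z : Fin 3 → ℂ} (hz : plFunc n z = 0) {m : X} (hm : m ∈ M) :
    ‖plComb x (plCorr n' i z) - plComb x z‖ ≤ 27 / 2 * ρ * ‖plComb x z + m‖ := by
  rw [plCorr_apply, map_sub, plComb_single, sub_sub_cancel_left, norm_neg, norm_smul, hx, mul_one,
    norm_mul, norm_inv, Complex.norm_real, Real.norm_eq_abs, abs_of_nonneg (by linarith)]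
  have h1 := norm_plFunc_le hx hD hρ0 hnn hz hm
  have h2 : (n' i)⁻¹ ≤ 3 := by
    rw [inv_le_comm₀ (by linarith) (by norm_num)]
    linarith
  have h3 : (0 : ℝ) ≤ (n' i)⁻¹ := inv_nonneg.2 (by linarith)
  calc (n' i)⁻¹ * ‖plFunc n' z‖ ≤ 3 * (9 / 2 * ρ * ‖plComb x z + m‖) :=
        mul_le_mul h2 h1 (norm_nonneg _) (by norm_num)
    _ = 27 / 2 * ρ * ‖plComb x z + m‖ := by ring

end PlaneAux

theorem finrank_Pl {X : Type*} [NormedAddCommGroup X] [NormedSpace ℂ X] {x : Fin 3 → X}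
    {M : Submodule ℂ X} (hx : ∀ i, ‖x i‖ = 1) (hD : D3 1 x M) {n : Fin 3 → ℝ} (hn : n ≠ 0) :
    finrank ℂ (Pl x n) = 2 := by
  rw [Pl_eq_map, ← LinearEquiv.finrank_eq
    (Submodule.equivMapOfInjective (plComb x) (plComb_injective hx hD) (LinearMap.ker (plFunc n)))]
  have h1 := LinearMap.finrank_range_add_finrank_ker (plFunc n)
  have h2 : LinearMap.range (plFunc n) = ⊤ := by
    rw [LinearMap.range_eq_top]
    obtain ⟨i, hi⟩ := Function.ne_iff.1 hn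
    have hi' : (n i : ℂ) ≠ 0 := by exact_mod_cast hi
    intro c
    refine ⟨Pi.single i ((n i : ℂ)⁻¹ * c), ?_⟩
    rw [plFunc_apply, Finset.sum_eq_single i]
    · rw [Pi.single_eq_same, ← mul_assoc, mul_inv_cancel₀ hi', one_mul]
    · intro j _ hj
      rw [Pi.single_eq_of_ne hj, mul_zero]
    · intro h; exact absurd (Finset.mem_univ i) h
  rw [h2, finrank_top, Module.finrank_self, Module.finrank_fin_fun] at h1
  omega

theorem LP.perturb {X : Type*} [NormedAddCommGroup X] [NormedSpace ℂ X] {x : Fin 3 → X}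
    {M : Submodule ℂ X} (hx : ∀ i, ‖x i‖ = 1) (hD : D3 1 x M) {n n' : Fin 3 → ℝ}
    (hn' : ∀ i, 0 ≤ n' i) (hs' : ∑ i, n' i = 1) {ρ : ℝ} (hρ0 : 0 ≤ ρ) (hρ : 1000 * ρ ≤ 1)
    (hnn : ∀ i, |n i - n' i| ≤ ρ) {a b : X} (ha : a ∈ Pl x n) (hb : b ∈ Pl x n)
    (ha1 : ‖a‖ = 1) (hb1 : ‖b‖ = 1) {η : ℝ} (hη0 : 0 ≤ η) (hη1 : η ≤ 1) (h : LP η a b M) :
    ∃ a' ∈ Pl x n', ∃ b' ∈ Pl x n', ‖a'‖ = 1 ∧ ‖b'‖ = 1 ∧ LP (η + 1000 * ρ) a' b' M ∧
      ‖a' - a‖ ≤ 1000 * ρ ∧ ‖b' - b‖ ≤ 1000 * ρ := by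
  obtain ⟨i, hi⟩ : ∃ i, 1 / 3 ≤ n' i := by
    by_contra hc
    push Not at hc
    rw [Fin.sum_univ_three] at hs'
    linarith [hc 0, hc 1, hc 2]
  have hi0 : n' i ≠ 0 := by linarith
  obtain ⟨za, hza, rfl⟩ := ha
  obtain ⟨zb, hzb, rfl⟩ := hb
  change plFunc n za = 0 at hza
  change plFunc n zb = 0 at hzb
  change ‖plComb x za‖ = 1 at ha1
  change ‖plComb x zb‖ = 1 at hb1
  change LP η (plComb x za) (plComb x zb) M at h
  set S := fun z => plComb x (plCorr n' i z) with hS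
  have hmem : ∀ z, S z ∈ Pl x n' := fun z => ⟨plCorr n' i z, plFunc_corr hi0 z, rfl⟩
  have hclose : ∀ z : Fin 3 → ℂ, plFunc n z = 0 → ∀ m ∈ M,
      ‖S z - plComb x z‖ ≤ 27 / 2 * ρ * ‖plComb x z + m‖ := fun z hz m hm =>
    norm_plCorr_sub_le hx hD hρ0 hnn hi hz hm
  have hnear : ∀ z : Fin 3 → ℂ, plFunc n z = 0 → ‖plComb x z‖ = 1 →
      0 < ‖S z‖ ∧ ‖(((‖S z‖⁻¹ : ℝ)) : ℂ) • S z‖ = 1 ∧
      ‖(((‖S z‖⁻¹ : ℝ)) : ℂ) • S z - plComb x z‖ ≤ 1000 * ρ := by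
    intro z hz hz1
    have h1 := hclose z hz 0 M.zero_mem
    rw [add_zero, hz1, mul_one] at h1
    have h2 : |‖S z‖ - 1| ≤ 27 / 2 * ρ := by
      rw [← hz1]
      exact (abs_norm_sub_norm_le _ _).trans h1
    have h3 : 0 < ‖S z‖ := by
      rw [abs_le] at h2
      linarith
    have h4 : ‖(((‖S z‖⁻¹ : ℝ)) : ℂ) • S z - S z‖ = |‖S z‖ - 1| := by
      have e : (((‖S z‖⁻¹ : ℝ)) : ℂ) • S z - S z = (((‖S z‖⁻¹ - 1 : ℝ)) : ℂ) • S z := by
        push_cast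
        rw [sub_smul, one_smul]
      rw [e, norm_smul, Complex.norm_real, Real.norm_eq_abs]
      nth_rewrite 2 [← abs_of_pos h3]
      rw [← abs_mul, sub_mul, inv_mul_cancel₀ h3.ne', one_mul, abs_sub_comm]
    refine ⟨h3, ?_, ?_⟩
    · rw [norm_smul, Complex.norm_real, Real.norm_eq_abs, abs_of_pos (inv_pos.2 h3),
        inv_mul_cancel₀ h3.ne']
    · calc ‖(((‖S z‖⁻¹ : ℝ)) : ℂ) • S z - plComb x z‖
          ≤ ‖(((‖S z‖⁻¹ : ℝ)) : ℂ) • S z - S z‖ + ‖S z - plComb x z‖ :=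
            norm_sub_le_norm_sub_add_norm_sub _ _ _
        _ ≤ 27 / 2 * ρ + 27 / 2 * ρ := by rw [h4]; exact add_le_add h2 h1
        _ ≤ 1000 * ρ := by linarith
  obtain ⟨ha2, ha3, ha4⟩ := hnear za hza ha1
  obtain ⟨hb2, hb3, hb4⟩ := hnear zb hzb hb1
  refine ⟨_, (Pl x n').smul_mem _ (hmem za), _, (Pl x n').smul_mem _ (hmem zb), ha3, hb3, ?_,
    ha4, hb4⟩
  have key : ∀ α β : ℂ, ∀ m ∈ M,
      ‖(α • S za + β • S zb + m) - (α • plComb x za + β • plComb x zb + m)‖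
        ≤ 27 / 2 * ρ * ‖α • plComb x za + β • plComb x zb + m‖ := by
    intro α β m hm
    have h1 : plFunc n (α • za + β • zb) = 0 := by
      rw [map_add, map_smul, map_smul, hza, hzb, smul_zero, smul_zero, add_zero]
    have h2 := hclose _ h1 m hm
    have e1 : S (α • za + β • zb) = α • S za + β • S zb := by
      simp only [hS, map_add, map_smul]
    have e2 : plComb x (α • za + β • zb) = α • plComb x za + β • plComb x zb := by
      simp only [map_add, map_smul]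
    rw [e1, e2] at h2
    rw [add_sub_add_right_eq_sub]
    exact h2
  intro α β ζ hζ m hm
  set α' : ℂ := α * ((‖S za‖⁻¹ : ℝ) : ℂ) with hα'
  set β' : ℂ := β * ((‖S zb‖⁻¹ : ℝ) : ℂ) with hβ'
  have e1 : (ζ * α) • (((‖S za‖⁻¹ : ℝ)) : ℂ) • S za + β • (((‖S zb‖⁻¹ : ℝ)) : ℂ) • S zb + m
      = (ζ * α') • S za + β' • S zb + m := by
    rw [smul_smul, smul_smul, hα', hβ', mul_assoc]
  have e2 : α • (((‖S za‖⁻¹ : ℝ)) : ℂ) • S za + β • (((‖S zb‖⁻¹ : ℝ)) : ℂ) • S zb + m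
      = α' • S za + β' • S zb + m := by
    rw [smul_smul, smul_smul]
  rw [e1, e2]
  have k1 := key (ζ * α') β' m hm
  have k2 := key α' β' m hm
  have k3 := h α' β' ζ hζ m hm
  set P := ‖(ζ * α') • S za + β' • S zb + m‖ with hP
  set Q := ‖α' • S za + β' • S zb + m‖ with hQ
  set R := ‖(ζ * α') • plComb x za + β' • plComb x zb + m‖ with hR
  set T := ‖α' • plComb x za + β' • plComb x zb + m‖ with hT
  have k4 : P ≤ (1 + 27 / 2 * ρ) * R := by
    have := norm_le_insert' ((ζ * α') • S za + β' • S zb + m)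
      ((ζ * α') • plComb x za + β' • plComb x zb + m)
    linarith
  have k5 : (1 - 27 / 2 * ρ) * T ≤ Q := by
    have := norm_le_insert ((α') • S za + β' • S zb + m)
      ((α') • plComb x za + β' • plComb x zb + m)
    linarith
  have hT0 : 0 ≤ T := norm_nonneg _
  have k6 : P ≤ (1 + 27 / 2 * ρ) * ((1 + η) * T) :=
    k4.trans (mul_le_mul_of_nonneg_left k3 (by linarith))
  have k7 : (1 + 27 / 2 * ρ) * (1 + η) ≤ (1 + (η + 1000 * ρ)) * (1 - 27 / 2 * ρ) := by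
    nlinarith [mul_nonneg hρ0 hη0, mul_nonneg hρ0 hρ0]
  calc P ≤ ((1 + 27 / 2 * ρ) * (1 + η)) * T := by linarith
    _ ≤ ((1 + (η + 1000 * ρ)) * (1 - 27 / 2 * ρ)) * T := mul_le_mul_of_nonneg_right k7 hT0
    _ = (1 + (η + 1000 * ρ)) * ((1 - 27 / 2 * ρ) * T) := by ring
    _ ≤ (1 + (η + 1000 * ρ)) * Q := mul_le_mul_of_nonneg_left k5 (by linarith)

end Pool.Agent.TH319
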