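import Mathlib

/-!
# The finite building block

For primes `p` and `q`, with `q` a primitive root modulo `p`, and `k = p - 1`, the group of linear
automorphisms of `F_q ^ k` that preserve the coordinate `0` has order prime to `p` and fuses all
`k`-tuples of distinct vectors of the moment curve.
-/

set_option autoImplicit false

namespace Pool.Agent.TH61.TD

open Module

/-- `q` is a primitive root modulo `p = k + 1`, in the form we use. -/
def PrimRoot (k q : ℕ) : Prop :=
  q.Coprime (k + 1) ∧ ∀ j, 1 ≤ j → j < k → ¬ (q ^ j ≡ 1 [MOD (k + 1)])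

theorem exists_primRoot {k : ℕ} (hk : (k + 1).Prime) (N : ℕ) :
    ∃ q, N < q ∧ q.Prime ∧ PrimRoot k q := by
  have : Fact (k + 1).Prime := ⟨hk⟩
  obtain ⟨g, hg⟩ := IsCyclic.exists_generator (α := (ZMod (k + 1))ˣ)
  have hord : orderOf g = k := by
    rw [orderOf_eq_card_of_forall_mem_zpowers hg, Nat.card_eq_fintype_card, ZMod.card_units]
    simp
  obtain ⟨q, hq, hqp, hqe⟩ := Nat.forall_exists_prime_gt_and_eq_mod (q := k + 1)
    (a := (g : ZMod (k + 1))) g.isUnit N
  refine ⟨q, hq, hqp, ?_, ?_⟩
  · rw [← ZMod.isUnit_iff_coprime, hqe]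
    exact g.isUnit
  · intro j hj1 hj2 h
    have h1 : ((q ^ j : ℕ) : ZMod (k + 1)) = ((1 : ℕ) : ZMod (k + 1)) :=
      (ZMod.natCast_eq_natCast_iff _ _ _).2 h
    rw [Nat.cast_pow, hqe, Nat.cast_one, ← Units.val_pow_eq_pow_val] at h1
    have h2 := orderOf_dvd_of_pow_eq_one (Units.val_eq_one.1 h1)
    rw [hord] at h2
    exact absurd (Nat.le_of_dvd (by omega) h2) (by omega)

/-- The group of linear automorphisms of `F_q ^ k` that preserve the coordinate `0`
(an affine group of dimension `k - 1`). -/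
def Aff (k q : ℕ) [NeZero k] : Subgroup ((Fin k → ZMod q) ≃ₗ[ZMod q] (Fin k → ZMod q)) where
  carrier := {T | ∀ v, T v 0 = v 0}
  mul_mem' := by
    intro a b ha hb v
    have : (a * b) v = a (b v) := rfl
    rw [this, ha, hb]
  one_mem' := by intro v; rfl
  inv_mem' := by
    intro a ha v
    have h := ha (a⁻¹ v)
    have h2 : a (a⁻¹ v) = v := a.apply_symm_apply v
    rw [h2] at h
    exact h.symm

theorem aff_no_torsion {k q : ℕ} [NeZero k] [Fact q.Prime] (hk : (k + 1).Prime)
    (hq : PrimRoot k q) (T : (Fin k → ZMod q) ≃ₗ[ZMod q] (Fin k → ZMod q))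
    (hT : ∀ v, T v 0 = v 0) (h1 : T ^ (k + 1) = 1) : T = 1 := by
  classical
  have : Fact (k + 1).Prime := ⟨hk⟩
  let V := Fin k → ZMod q
  let L : V →ₗ[ZMod q] V := (T : V →ₗ[ZMod q] V) - LinearMap.id
  have hL : ∀ v, L v = T v - v := fun v => rfl
  -- the number of fixed points
  let f : Function.End V := fun v => T v
  have hpow : ∀ n : ℕ, ∀ v : V, (f ^ n) v = (T ^ n) v := by
    intro n
    induction n with
    | zero => intro v; rfl
    | succ n ih =>
      intro v
      have e1 : (f ^ (n + 1)) v = (f ^ n) (f v) := by rw [pow_succ]; rfl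
      have e2 : (T ^ (n + 1)) v = (T ^ n) (T v) := by rw [pow_succ]; rfl
      rw [e1, e2, ih]
  have hfix : Fintype.card V ≡ Fintype.card (Function.fixedPoints f) [MOD (k + 1)] := by
    refine Equiv.Perm.card_fixedPoints_modEq (α := V) (f := f) (p := k + 1) (n := 1) ?_
    rw [pow_one]
    funext v
    rw [hpow (k + 1) v, h1]
    rfl
  have hfk : Fintype.card (Function.fixedPoints f) =
      q ^ finrank (ZMod q) (LinearMap.ker L) := by
    have e1 : Nat.card (LinearMap.ker L) = Nat.card (ZMod q) ^ finrank (ZMod q)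
      (LinearMap.ker L) := Module.natCard_eq_pow_finrank
    rw [Nat.card_zmod] at e1
    rw [← e1, ← Nat.card_eq_fintype_card]
    refine Nat.card_congr (Equiv.subtypeEquivRight fun v => ?_)
    rw [LinearMap.mem_ker, hL, sub_eq_zero]
    rfl
  have hV : Fintype.card V = q ^ k := by
    simp [V, ZMod.card]
  have hrk : finrank (ZMod q) (LinearMap.range L) + finrank (ZMod q) (LinearMap.ker L) = k := by
    rw [LinearMap.finrank_range_add_finrank_ker]
    simp [V]
  have hrlt : finrank (ZMod q) (LinearMap.range L) < k := by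
    have h2 : LinearMap.range L ≠ ⊤ := by
      intro htop
      have h3 : (fun _ => 1 : V) ∈ LinearMap.range L := by rw [htop]; trivial
      obtain ⟨v, hv⟩ := h3
      have h4 : L v 0 = 0 := by
        rw [hL, Pi.sub_apply, hT, sub_self]
      rw [hv] at h4
      exact one_ne_zero h4
    have h5 := Submodule.finrank_lt h2
    simpa [V] using h5
  have hr0 : finrank (ZMod q) (LinearMap.range L) = 0 := by
    by_contra hne
    rw [hfk, hV] at hfix
    have h6 : q ^ k = q ^ finrank (ZMod q) (LinearMap.ker L) *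
        q ^ finrank (ZMod q) (LinearMap.range L) := by
      rw [← pow_add, add_comm, hrk]
    rw [h6] at hfix
    have h7 : q ^ finrank (ZMod q) (LinearMap.range L) ≡ 1 [MOD (k + 1)] := by
      have hc : (k + 1).gcd (q ^ finrank (ZMod q) (LinearMap.ker L)) = 1 :=
        Nat.Coprime.pow_right _ hq.1.symm
      refine Nat.ModEq.cancel_left_of_coprime hc ?_
      rw [mul_one]
      exact hfix
    exact hq.2 _ (Nat.pos_of_ne_zero hne) hrlt h7
  have hL0 : L = 0 := by
    rw [Submodule.finrank_eq_zero, LinearMap.range_eq_bot] at hr0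
    exact hr0
  ext1 v
  have h8 : L v = 0 := by rw [hL0]; rfl
  rw [hL, sub_eq_zero] at h8
  rw [h8]
  rfl

instance finite_aut (k q : ℕ) [NeZero q] :
    Finite ((Fin k → ZMod q) ≃ₗ[ZMod q] (Fin k → ZMod q)) :=
  Finite.of_injective (fun T => (T : (Fin k → ZMod q) → (Fin k → ZMod q)))
    DFunLike.coe_injective

theorem aff_exponent {k q : ℕ} [NeZero k] [hqp : Fact q.Prime] (hk : (k + 1).Prime)
    (hq : PrimRoot k q) :
    ∃ m : ℕ, m.Coprime (k + 1) ∧ ∀ T ∈ Aff k q, T ^ m = 1 := by
  classical
  have : NeZero q := ⟨hqp.out.ne_zero⟩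
  have : Fact (k + 1).Prime := ⟨hk⟩
  refine ⟨Nat.card (Aff k q), ?_, ?_⟩
  · rw [Nat.coprime_comm]
    by_contra hnc
    have hd : (k + 1) ∣ Nat.card (Aff k q) := by
      rwa [Nat.Prime.coprime_iff_not_dvd hk, not_not] at hnc
    obtain ⟨x, hx⟩ := exists_prime_orderOf_dvd_card' (G := Aff k q) (k + 1) hd
    have h1 : (x : (Fin k → ZMod q) ≃ₗ[ZMod q] (Fin k → ZMod q)) ^ (k + 1) = 1 := by
      have := pow_orderOf_eq_one x
      rw [hx] at this
      have h2 := congrArg Subtype.val this
      simpa using h2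
    have h2 := aff_no_torsion hk hq x.1 x.2 h1
    have h3 : x = 1 := Subtype.ext h2
    rw [h3, orderOf_one] at hx
    exact hk.one_lt.ne hx
  · intro T hT
    have h := pow_card_eq_one' (x := (⟨T, hT⟩ : Aff k q))
    have h2 := congrArg Subtype.val h
    rw [Subgroup.coe_pow] at h2
    exact h2

/-- The moment curve. -/
def mom (k q : ℕ) (t : ZMod q) : Fin k → ZMod q := fun j => t ^ (j : ℕ)

theorem mom_injective {k q : ℕ} (hk : 2 ≤ k) : Function.Injective (mom k q) := by
  intro a b h
  have := congrFun h ⟨1, by omega⟩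
  simpa [mom] using this

theorem aff_fuse {k q : ℕ} [NeZero k] [hqp : Fact q.Prime]
    (s t : Fin k → ZMod q) (hs : Function.Injective s) (ht : Function.Injective t) :
    ∃ T ∈ Aff k q, ∀ i, T (mom k q (s i)) = mom k q (t i) := by
  classical
  have hli : ∀ u : Fin k → ZMod q, Function.Injective u →
      LinearIndependent (ZMod q) (fun i => mom k q (u i)) := by
    intro u hu
    have h := Matrix.linearIndependent_rows_of_det_ne_zero
      (Matrix.det_vandermonde_ne_zero_iff.2 hu)
    exact h
  have hcard : Fintype.card (Fin k) = finrank (ZMod q) (Fin k → ZMod q) := by simp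
  let b := basisOfLinearIndependentOfCardEqFinrank (hli s hs) hcard
  let c := basisOfLinearIndependentOfCardEqFinrank (hli t ht) hcard
  have hb : ∀ i, b i = mom k q (s i) := fun i => by
    simp [b]
  have hc : ∀ i, c i = mom k q (t i) := fun i => by
    simp [c]
  let T := b.equiv c (Equiv.refl _)
  have hTb : ∀ i, T (b i) = c i := fun i => by
    simp [T]
  refine ⟨T, ?_, fun i => by rw [← hb, ← hc, hTb]⟩
  intro v
  have hfun : (LinearMap.proj (0 : Fin k) : (Fin k → ZMod q) →ₗ[ZMod q] ZMod q).comp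
      (T : (Fin k → ZMod q) →ₗ[ZMod q] (Fin k → ZMod q)) = LinearMap.proj (0 : Fin k) := by
    refine b.ext fun i => ?_
    have h1 : (T : (Fin k → ZMod q) →ₗ[ZMod q] (Fin k → ZMod q)) (b i) = c i := hTb i
    rw [LinearMap.comp_apply, h1, LinearMap.proj_apply, LinearMap.proj_apply, hb, hc]
    simp [mom]
  have := LinearMap.congr_fun hfun v
  exact this

end Pool.Agent.TH61.TD
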