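import Pool.Agent.TH61.TDStage

/-!
# The direct limit of the stages
-/

set_option autoImplicit false

namespace Pool.Agent.TH61.TD

open Filter

/-- The identity embedding. -/
def Stage.Hom.id {k : ℕ} (s : Stage k) : Stage.Hom s s :=
  ⟨_root_.id, Function.injective_id, MonoidHom.id _, fun _ _ => rfl⟩

/-- Composition of embeddings. -/
def Stage.Hom.comp {k : ℕ} {s t u : Stage k} (f : Stage.Hom s t) (g : Stage.Hom t u) :
    Stage.Hom s u :=
  ⟨g.φ ∘ f.φ, g.inj.comp f.inj, g.ψ.comp f.ψ, fun a x => by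
    change g.φ (f.φ (a.1 x)) = (g.ψ (f.ψ a)).1 (g.φ (f.φ x))
    rw [f.eqv, g.eqv]⟩

section Lim

variable {k : ℕ} (S : ℕ → Stage k) (J : ∀ n, Stage.Hom (S n) (S (n + 1)))

/-- The transition maps. -/
def tr (n m : ℕ) (h : n ≤ m) : Stage.Hom (S n) (S m) :=
  Nat.leRecOn (C := fun m => Stage.Hom (S n) (S m)) h (fun {m} f => f.comp (J m))
    (Stage.Hom.id _)

theorem tr_self (n : ℕ) : tr S J n n le_rfl = Stage.Hom.id _ := Nat.leRecOn_self _

theorem tr_succ (n m : ℕ) (h : n ≤ m) :
    tr S J n (m + 1) (h.trans (Nat.le_succ m)) = (tr S J n m h).comp (J m) :=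
  Nat.leRecOn_succ h _

theorem tr_trans (n m l : ℕ) (h : n ≤ m) (h' : m ≤ l) :
    (tr S J n m h).comp (tr S J m l h') = tr S J n l (h.trans h') := by
  induction l, h' using Nat.le_induction with
  | base => rw [tr_self]; rfl
  | succ l hl ih =>
    rw [tr_succ S J m l hl, tr_succ S J n l (h.trans hl), ← ih]
    rfl

/-- The maps on points. -/
def trX (n m : ℕ) (h : n ≤ m) : (S n).X ↪ (S m).X := ⟨(tr S J n m h).φ, (tr S J n m h).inj⟩

/-- The maps on groups. -/
def trG (n m : ℕ) (h : n ≤ m) : (S n).G →* (S m).G := (tr S J n m h).ψ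

instance dsX : DirectedSystem (fun n => (S n).X) (fun n m h => trX S J n m h) where
  map_self n x := by
    change (tr S J n n le_rfl).φ x = x
    rw [tr_self]
    rfl
  map_map n m l h h' x := by
    change (tr S J _ _ h').φ ((tr S J _ _ h).φ x) = (tr S J _ _ (h.trans h')).φ x
    rw [← tr_trans S J _ _ _ h h']
    rfl

instance dsG : DirectedSystem (fun n => (S n).G) (fun n m h => trG S J n m h) where
  map_self n x := by
    change (tr S J n n le_rfl).ψ x = x
    rw [tr_self]
    rfl
  map_map n m l h h' x := by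
    change (tr S J _ _ h').ψ ((tr S J _ _ h).ψ x) = (tr S J _ _ (h.trans h')).ψ x
    rw [← tr_trans S J _ _ _ h h']
    rfl

/-- The limit set. -/
abbrev LimX : Type := DirectLimit (fun n => (S n).X) (trX S J)

/-- The limit group. -/
abbrev LimG : Type := DirectLimit (fun n => (S n).G) (trG S J)

/-- The canonical maps on points. -/
def mkX (n : ℕ) (x : (S n).X) : LimX S J := ⟦⟨n, x⟩⟧

/-- The canonical maps on groups. -/
def mkG (n : ℕ) (g : (S n).G) : LimG S J := ⟦⟨n, g⟩⟧

theorem mkX_tr (n m : ℕ) (h : n ≤ m) (x : (S n).X) :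
    mkX S J m (trX S J n m h x) = mkX S J n x :=
  DirectLimit.mk_apply (F := fun n => (S n).X) (f := trX S J) n m x h

theorem mkG_tr (n m : ℕ) (h : n ≤ m) (x : (S n).G) :
    mkG S J m (trG S J n m h x) = mkG S J n x :=
  DirectLimit.mk_apply (F := fun n => (S n).G) (f := trG S J) n m x h

theorem mkX_inj (n : ℕ) : Function.Injective (mkX S J n) :=
  DirectLimit.mk_injective (f := trX S J) (fun n m h => (trX S J n m h).injective) n

theorem ev_X (x : LimX S J) : ∀ᶠ n in atTop, ∃ x', x = mkX S J n x' := by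
  obtain ⟨n, x', rfl⟩ := DirectLimit.exists_eq_mk (f := trX S J) x
  filter_upwards [eventually_ge_atTop n] with m hm
  exact ⟨trX S J n m hm x', (mkX_tr S J n m hm x').symm⟩

theorem ev_G (g : LimG S J) : ∀ᶠ n in atTop, ∃ g', g = mkG S J n g' := by
  obtain ⟨n, x', rfl⟩ := DirectLimit.exists_eq_mk (f := trG S J) g
  filter_upwards [eventually_ge_atTop n] with m hm
  exact ⟨trG S J n m hm x', (mkG_tr S J n m hm x').symm⟩

/-- The action. -/
noncomputable def act : LimG S J → LimX S J → LimX S J :=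
  DirectLimit.map₂ (trG S J) (trX S J) (trX S J) (fun _ g x => g.1 x)
    (fun _ _ _ _ _ => Stage.Hom.eqv _ _ _)

theorem act_mk (n : ℕ) (g : (S n).G) (x : (S n).X) :
    act S J (mkG S J n g) (mkX S J n x) = mkX S J n (g.1 x) :=
  DirectLimit.map₂_def (F₁ := fun n => (S n).G) (F₂ := fun n => (S n).X)
    (F := fun n => (S n).X) (trG S J) (trX S J) (trX S J) (fun _ g x => g.1 x) _ n g x

/-- The action of the limit group on the limit set. -/
noncomputable instance limAction : MulAction (LimG S J) (LimX S J) where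
  smul := act S J
  one_smul x := by
    obtain ⟨n, x', rfl⟩ := (ev_X S J x).exists
    change act S J 1 _ = _
    rw [DirectLimit.one_def (f := trG S J) n]
    exact act_mk S J n 1 x'
  mul_smul g h x := by
    obtain ⟨n, ⟨g', rfl⟩, ⟨h', rfl⟩, ⟨x', rfl⟩⟩ :=
      ((ev_G S J g).and ((ev_G S J h).and (ev_X S J x))).exists
    change act S J (mkG S J n g' * mkG S J n h') _ = act S J _ (act S J _ _)
    rw [act_mk, act_mk]
    have e : mkG S J n g' * mkG S J n h' = mkG S J n (g' * h') :=
      DirectLimit.mul_def (G := fun n => (S n).G) (f := trG S J) n g' h'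
    rw [e, act_mk]
    rfl

theorem smul_mk (n : ℕ) (g : (S n).G) (x : (S n).X) :
    (mkG S J n g) • (mkX S J n x) = mkX S J n (g.1 x) := act_mk S J n g x

theorem lim_expo (g : LimG S J) : ∃ m : ℕ, m.Coprime (k + 1) ∧ g ^ m = 1 := by
  obtain ⟨n, g', rfl⟩ := (ev_G S J g).exists
  obtain ⟨m, hm, hm2⟩ := (S n).expo
  refine ⟨m, hm, ?_⟩
  have e : (mkG S J n g') ^ m = mkG S J n (g' ^ m) :=
    DirectLimit.npow_def (G := fun n => (S n).G) (f := trG S J) n g' m
  have e2 : g' ^ m = 1 := by
    apply Subtype.ext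
    rw [Subgroup.coe_pow]
    exact hm2 g'.1 g'.2
  rw [e, e2]
  exact (DirectLimit.one_def (f := trG S J) n).symm

theorem lim_faithful (g : LimG S J) (hg : ∀ x : LimX S J, g • x = x) : g = 1 := by
  obtain ⟨n, g', rfl⟩ := (ev_G S J g).exists
  have : g' = 1 := by
    apply Subtype.ext
    ext1 x
    apply mkX_inj S J n
    rw [← smul_mk, hg]
    rfl
  rw [this]
  exact (DirectLimit.one_def (f := trG S J) n).symm

theorem lim_fuse (hJ : ∀ n, ∀ x y : Fin k ↪ (S n).X, ∃ g : (S (n + 1)).G,
      ∀ i, g.1 ((J n).φ (x i)) = (J n).φ (y i))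
    (x y : Fin k ↪ LimX S J) : ∃ g : LimG S J, ∀ i, g • x i = y i := by
  have hx : ∀ᶠ n in atTop, ∀ i, ∃ x', x i = mkX S J n x' :=
    eventually_all.2 fun i => ev_X S J (x i)
  have hy : ∀ᶠ n in atTop, ∀ i, ∃ y', y i = mkX S J n y' :=
    eventually_all.2 fun i => ev_X S J (y i)
  obtain ⟨n, hx, hy⟩ := (hx.and hy).exists
  choose x' hx' using hx
  choose y' hy' using hy
  have hxi : Function.Injective x' := fun a b h => x.injective (by rw [hx', hx', h])
  have hyi : Function.Injective y' := fun a b h => y.injective (by rw [hy', hy', h])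
  obtain ⟨g, hg⟩ := hJ n ⟨x', hxi⟩ ⟨y', hyi⟩
  have hJtr : ∀ z, mkX S J (n + 1) ((J n).φ z) = mkX S J n z := by
    intro z
    rw [← mkX_tr S J n (n + 1) (Nat.le_succ n) z]
    congr 1
    change _ = (tr S J n (n + 1) _).φ z
    rw [tr_succ S J n n le_rfl, tr_self]
    rfl
  refine ⟨mkG S J (n + 1) g, fun i => ?_⟩
  rw [hx', hy', ← hJtr, ← hJtr, smul_mk]
  exact congrArg _ (hg i)

theorem lim_countable_X : Countable (LimX S J) := by
  have : ∀ n, Finite (S n).X := fun n => (S n).fin
  have : Countable (Σ n, (S n).X) := inferInstance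
  exact Quotient.countable

theorem lim_countable_G : Countable (LimG S J) := by
  have : ∀ n, Finite (S n).X := fun n => (S n).fin
  have : ∀ n, Finite (S n).G := fun n => inferInstance
  have : Countable (Σ n, (S n).G) := inferInstance
  exact Quotient.countable

theorem lim_infinite_X (hJ : ∀ n, Nat.card (S n).X < Nat.card (S (n + 1)).X) :
    Infinite (LimX S J) := by
  by_contra hfin
  rw [not_infinite_iff_finite] at hfin
  have h1 : ∀ n, n ≤ Nat.card (S n).X := by
    intro n
    induction n with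
    | zero => exact Nat.zero_le _
    | succ n ih => exact Nat.lt_of_le_of_lt ih (hJ n)
  have h2 := Nat.card_le_card_of_injective _ (mkX_inj S J (Nat.card (LimX S J) + 1))
  have h3 := h1 (Nat.card (LimX S J) + 1)
  omega

end Lim

/-- The upper bound: a group in which every element has order prime to `p` has no `p`-transitive
action on a set with at least `p` points. -/
theorem no_transitive {k : ℕ} {G : Type*} [Group G]
    (hG : ∀ g : G, ∃ m : ℕ, m.Coprime (k + 1) ∧ g ^ m = 1) (hk : 1 ≤ k)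
    {X : Type*} [MulAction G X] (hX : Nonempty (Fin (k + 1) ↪ X)) :
    ¬ ∀ x y : Fin (k + 1) ↪ X, ∃ g : G, ∀ i, g • x i = y i := by
  intro h
  obtain ⟨x⟩ := hX
  obtain ⟨g, hg⟩ := h x ((Equiv.addRight (1 : Fin (k + 1))).toEmbedding.trans x)
  obtain ⟨m, hm, hgm⟩ := hG g
  have hstep : ∀ i, g • x i = x (i + 1) := fun i => hg i
  have hpow : ∀ n : ℕ, (g ^ n) • x 0 = x (Fin.ofNat (k + 1) n) := by
    intro n
    induction n with
    | zero =>
      rw [pow_zero, one_smul]
      congr 1
    | succ n ih =>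
      rw [pow_succ', mul_smul, ih, hstep]
      congr 1
      apply Fin.ext
      simp [Fin.val_add]
  have h0 := hpow m
  rw [hgm, one_smul] at h0
  have h1 := x.injective h0
  have h2 : (k + 1) ∣ m := by
    have h3 := congrArg Fin.val h1
    exact Nat.dvd_of_mod_eq_zero h3.symm
  have h4 := Nat.Coprime.eq_one_of_dvd hm.symm h2
  omega

end Pool.Agent.TH61.TD
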