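import Pool.Agent.TH61.TDBlock

/-!
# Stages and the extension step

A stage is a finite permutation group of exponent prime to `k + 1`.  Each stage embeds into a
larger one (the product action of a regular wreath product of an affine group with the given
group) in which all `k`-tuples of distinct points of the old set are fused.
-/

set_option autoImplicit false

namespace Pool.Agent.TH61.TD

/-- A finite permutation group of exponent prime to `k + 1`. -/
structure Stage (k : ℕ) where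
  /-- the set -/
  X : Type
  fin : Finite X
  /-- the group -/
  G : Subgroup (Equiv.Perm X)
  expo : ∃ m : ℕ, m.Coprime (k + 1) ∧ ∀ g ∈ G, g ^ m = 1

/-- Embeddings of stages. -/
structure Stage.Hom {k : ℕ} (s t : Stage k) where
  /-- the map on points -/
  φ : s.X → t.X
  inj : Function.Injective φ
  /-- the map on groups -/
  ψ : s.G →* t.G
  eqv : ∀ (g : s.G) (x : s.X), φ (g.1 x) = (ψ g).1 (φ x)

section Wreath

variable {k q : ℕ} [NeZero k] {G : Type} [Group G]

/-- The permutation `σ` of `G → V` acts as the element `(a, h)` of the wreath product. -/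
def Rep (σ : Equiv.Perm (G → (Fin k → ZMod q))) (h : G) : Prop :=
  ∃ a : G → ((Fin k → ZMod q) ≃ₗ[ZMod q] (Fin k → ZMod q)), (∀ g, a g ∈ Aff k q) ∧
    ∀ f g, (σ f) g = a g (f (h⁻¹ * g))

theorem rep_one : Rep (1 : Equiv.Perm (G → (Fin k → ZMod q))) (1 : G) :=
  ⟨fun _ => 1, fun _ => (Aff k q).one_mem, fun f g => by simp⟩

theorem rep_mul {σ τ : Equiv.Perm (G → (Fin k → ZMod q))} {h h' : G} (hσ : Rep σ h)
    (hτ : Rep τ h') : Rep (σ * τ) (h * h') := by
  obtain ⟨a, ha, ha2⟩ := hσ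
  obtain ⟨b, hb, hb2⟩ := hτ
  refine ⟨fun g => a g * b (h⁻¹ * g), fun g => (Aff k q).mul_mem (ha _) (hb _), fun f g => ?_⟩
  have e : (σ * τ) f = σ (τ f) := rfl
  rw [e, ha2, hb2, mul_inv_rev, mul_assoc]
  rfl

theorem rep_inv {σ : Equiv.Perm (G → (Fin k → ZMod q))} {h : G} (hσ : Rep σ h) :
    Rep σ⁻¹ h⁻¹ := by
  obtain ⟨a, ha, ha2⟩ := hσ
  refine ⟨fun g => (a (h * g))⁻¹, fun g => (Aff k q).inv_mem (ha _), fun f g => ?_⟩
  have e : σ (σ⁻¹ f) = f := σ.apply_symm_apply f
  have e2 : f (h * g) = a (h * g) ((σ⁻¹ f) g) := by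
    conv_lhs => rw [← e]
    rw [ha2, inv_mul_cancel_left]
  rw [inv_inv, e2]
  exact ((a (h * g)).symm_apply_apply _).symm

theorem rep_pow {σ : Equiv.Perm (G → (Fin k → ZMod q))} {h : G} (hσ : Rep σ h) (n : ℕ) :
    Rep (σ ^ n) (h ^ n) := by
  induction n with
  | zero => simpa using rep_one
  | succ n ih => rw [pow_succ, pow_succ]; exact rep_mul ih hσ

theorem rep_one_pow {σ : Equiv.Perm (G → (Fin k → ZMod q))} (hσ : Rep σ 1) {m : ℕ}
    (hm : ∀ T ∈ Aff k q, T ^ m = 1) : σ ^ m = 1 := by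
  obtain ⟨a, ha, ha2⟩ := hσ
  have key : ∀ n : ℕ, ∀ f g, ((σ ^ n) f) g = ((a g) ^ n) (f g) := by
    intro n
    induction n with
    | zero => intro f g; rfl
    | succ n ih =>
      intro f g
      have e1 : (σ ^ (n + 1)) f = (σ ^ n) (σ f) := by rw [pow_succ]; rfl
      have e2 : ((a g) ^ (n + 1)) (f g) = ((a g) ^ n) (a g (f g)) := by rw [pow_succ]; rfl
      rw [e1, e2, ih, ha2, inv_one, one_mul]
  ext1 f
  funext g
  rw [key, hm _ (ha g)]
  rfl

variable (k q G) in
/-- The wreath product, as a permutation group of `G → V`. -/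
def Wr : Subgroup (Equiv.Perm (G → (Fin k → ZMod q))) where
  carrier := {σ | ∃ h : G, Rep σ h}
  mul_mem' := by
    rintro σ τ ⟨h, hσ⟩ ⟨h', hτ⟩
    exact ⟨_, rep_mul hσ hτ⟩
  one_mem' := ⟨1, rep_one⟩
  inv_mem' := by
    rintro σ ⟨h, hσ⟩
    exact ⟨_, rep_inv hσ⟩

theorem wr_exponent {m n : ℕ} (hm : ∀ g : G, g ^ m = 1) (hn : ∀ T ∈ Aff k q, T ^ n = 1) :
    ∀ σ ∈ Wr k q G, σ ^ (m * n) = 1 := by
  rintro σ ⟨h, hσ⟩
  rw [pow_mul]
  refine rep_one_pow ?_ hn
  have := rep_pow hσ m
  rwa [hm] at this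

/-- Left translations of functions. -/
def transl (V : Type) (h : G) : Equiv.Perm (G → V) where
  toFun f g := f (h⁻¹ * g)
  invFun f g := f (h * g)
  left_inv f := by funext g; simp
  right_inv f := by funext g; simp

variable (k q G) in
/-- The embedding of the group in the wreath product. -/
def translHom : G →* Wr k q G where
  toFun h := ⟨transl _ h, h, fun _ => 1, fun _ => (Aff k q).one_mem, fun _ _ => rfl⟩
  map_one' := by
    apply Subtype.ext
    ext1 f
    funext g
    change f (1⁻¹ * g) = f g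
    simp
  map_mul' h h' := by
    apply Subtype.ext
    ext1 f
    funext g
    change f ((h * h')⁻¹ * g) = f (h'⁻¹ * (h⁻¹ * g))
    simp [mul_assoc]

end Wreath

theorem exists_next {k : ℕ} (hk2 : 2 ≤ k) (hk : (k + 1).Prime) (s : Stage k) :
    ∃ (t : Stage k) (f : Stage.Hom s t), Nat.card s.X < Nat.card t.X ∧
      ∀ x y : Fin k ↪ s.X, ∃ g : t.G, ∀ i, g.1 (f.φ (x i)) = f.φ (y i) := by
  classical
  have := s.fin
  have : NeZero k := ⟨by omega⟩
  obtain ⟨q, hqX, hqp, hq⟩ := exists_primRoot hk (Nat.card s.X)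
  have : Fact q.Prime := ⟨hqp⟩
  have : NeZero q := ⟨hqp.ne_zero⟩
  obtain ⟨mA, hmA, hmA2⟩ := aff_exponent hk hq
  obtain ⟨mG, hmG, hmG2⟩ := s.expo
  have : Fintype s.X := Fintype.ofFinite _
  have hcard : Fintype.card s.X ≤ Fintype.card (ZMod q) := by
    rw [ZMod.card, ← Nat.card_eq_fintype_card]
    exact hqX.le
  obtain ⟨c⟩ := Function.Embedding.nonempty_of_card_le hcard
  let V := Fin k → ZMod q
  let φ : s.X → (s.G → V) := fun x g => mom k q (c ((g⁻¹).1 x))
  refine ⟨⟨s.G → V, inferInstance, Wr k q s.G, mG * mA, Nat.Coprime.mul_left hmG hmA, ?_⟩,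
    ⟨φ, ?_, translHom k q s.G, ?_⟩, ?_, ?_⟩
  · refine wr_exponent ?_ hmA2
    intro g
    apply Subtype.ext
    rw [Subgroup.coe_pow]
    exact hmG2 g.1 g.2
  · intro x y hxy
    have h1 := congrFun hxy 1
    have h2 := mom_injective hk2 h1
    have h3 := c.injective h2
    simpa using h3
  · intro g x
    funext g'
    change mom k q (c ((g'⁻¹).1 (g.1 x))) = mom k q (c (((g⁻¹ * g')⁻¹).1 x))
    rw [mul_inv_rev, inv_inv]
    rfl
  · change Nat.card s.X < Nat.card (s.G → V)
    have h1 : Nat.card V ≤ Nat.card (s.G → V) :=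
      Nat.card_le_card_of_injective (fun v _ => v) (fun a b h => congrFun h 1)
    have h2 : Nat.card V = q ^ k := by
      simp [V, Nat.card_eq_fintype_card, ZMod.card]
    have h3 : q ≤ q ^ k := Nat.le_self_pow (by omega) q
    omega
  · intro x y
    have hx : ∀ g : s.G, Function.Injective (fun i => c ((g⁻¹).1 (x i))) := fun g =>
      c.injective.comp ((g⁻¹).1.injective.comp x.injective)
    have hy : ∀ g : s.G, Function.Injective (fun i => c ((g⁻¹).1 (y i))) := fun g =>
      c.injective.comp ((g⁻¹).1.injective.comp y.injective)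
    choose a ha ha2 using fun g : s.G => aff_fuse _ _ (hx g) (hy g)
    let σ : Equiv.Perm (s.G → V) := Equiv.piCongrRight fun g => (a g).toEquiv
    refine ⟨⟨σ, 1, a, ha, ?_⟩, ?_⟩
    · intro f g
      rw [inv_one, one_mul]
      rfl
    · intro i
      funext g
      exact ha2 g i

end Pool.Agent.TH61.TD
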